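import Pool.Agent.helper44.EX.Spec

/-!
Project ex, module SIV: the local symmetry preserves the line field.
-/

set_option autoImplicit false

open Complex Metric Set Filter Topology MeasureTheory Pool.Agent.helper98.ILF

noncomputable section

namespace EX

/-- the algebra. -/
theorem SIV_alg (m0 m1 m2 a b d ω : ℂ) (hω : ‖ω‖ = 1) (hb : b ≠ 0) (hd : d ≠ 0) (ha : a ≠ 0)
    (h1 : m0 * (starRingEnd ℂ) a / a = m1)
    (h2 : ω ^ 2 * m0 * (starRingEnd ℂ) b / b = m2)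
    (h3 : b * d = ω * a) :
    m2 * (starRingEnd ℂ) d / d = m1 := by
  have hω0 : ω ≠ 0 := by
    intro h
    rw [h, norm_zero] at hω
    exact zero_ne_one hω
  have hωω : ω * (starRingEnd ℂ) ω = 1 := by
    rw [Complex.mul_conj, Complex.normSq_eq_norm_sq, hω]
    norm_num
  have h4 : (starRingEnd ℂ) b * (starRingEnd ℂ) d = (starRingEnd ℂ) ω * (starRingEnd ℂ) a := by
    rw [← map_mul, ← map_mul, h3]
  calc m2 * (starRingEnd ℂ) d / d
      = ω ^ 2 * m0 * ((starRingEnd ℂ) b * (starRingEnd ℂ) d) / (b * d) := by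
        rw [← h2]
        field_simp
    _ = ω ^ 2 * m0 * ((starRingEnd ℂ) ω * (starRingEnd ℂ) a) / (ω * a) := by
        rw [h3, h4]
    _ = (ω * (starRingEnd ℂ) ω) * (m0 * (starRingEnd ℂ) a / a) := by
        field_simp
    _ = m1 := by
        rw [hωω, h1, one_mul]

theorem SIV (hNUL : NUL_stmt) (hKO0 : V3.KO0_stmt) : SIV_stmt := by
  intro μ F S ω p s hs hω hF hμ hrot hS hinj hmaps hFS hF'
  have hS' : ∀ z ∈ ball p s, deriv S z ≠ 0 := hKO0 S (ball p s) isOpen_ball hS hinj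
  have hsub : ball p s ⊆ ball p (2 * s) := ball_subset_ball (by linarith)
  have hn1 : volume {z | z ∈ ball p s ∧ S z ∈ {z : ℂ |
      ¬ (μ (F z) * (starRingEnd ℂ) (deriv F z) / deriv F z = μ z)}} = 0 :=
    hNUL S (ball p s) _ isOpen_ball hS hS' (ae_iff.1 hμ)
  have hn2 : volume {z | z ∈ ball p s ∧ F z ∈ {z : ℂ | ¬ (μ (ω * z) = ω ^ 2 * μ z)}} = 0 :=
    hNUL F (ball p s) _ isOpen_ball hF.differentiableOn (fun z hz => hF' z (hsub hz))
      (ae_iff.1 hrot)
  have hm1 : ∀ᵐ z : ℂ, z ∉ {z | z ∈ ball p s ∧ S z ∈ {z : ℂ |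
      ¬ (μ (F z) * (starRingEnd ℂ) (deriv F z) / deriv F z = μ z)}} :=
    measure_eq_zero_iff_ae_notMem.1 hn1
  have hm2 : ∀ᵐ z : ℂ, z ∉ {z | z ∈ ball p s ∧ F z ∈ {z : ℂ | ¬ (μ (ω * z) = ω ^ 2 * μ z)}} :=
    measure_eq_zero_iff_ae_notMem.1 hn2
  filter_upwards [hμ, hm1, hm2] with z h1 h2 h3 hz
  have h2' : μ (F (S z)) * (starRingEnd ℂ) (deriv F (S z)) / deriv F (S z) = μ (S z) := by
    by_contra h
    exact h2 ⟨hz, h⟩
  have h3' : μ (ω * F z) = ω ^ 2 * μ (F z) := by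
    by_contra h
    exact h3 ⟨hz, h⟩
  have hdS : HasDerivAt S (deriv S z) z :=
    (hS.differentiableAt (isOpen_ball.mem_nhds hz)).hasDerivAt
  have hcomp : HasDerivAt (fun w => F (S w)) (deriv F (S z) * deriv S z) z :=
    (hF (S z)).hasDerivAt.comp z hdS
  have hmul : HasDerivAt (fun w => ω * F w) (ω * deriv F z) z := (hF z).hasDerivAt.const_mul ω
  have heq : (fun w => F (S w)) =ᶠ[𝓝 z] fun w => ω * F w := by
    filter_upwards [isOpen_ball.mem_nhds hz] with w hw using hFS w hw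
  have h4 : deriv F (S z) * deriv S z = ω * deriv F z :=
    (hmul.congr_of_eventuallyEq heq).unique hcomp |>.symm
  refine SIV_alg (μ (F z)) (μ z) (μ (S z)) (deriv F z) (deriv F (S z)) (deriv S z) ω hω
    (hF' _ (hmaps hz)) (hS' z hz) (hF' z (hsub hz)) h1 ?_ h4
  rw [← h3', ← hFS z hz]
  exact h2'

end EX
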